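import Pool.Agent.COV.StmtsB
import Mathlib.RingTheory.Derivation.MapCoeffs

/-!
# Squad COV (MP_160b6c_nt), row ABL: Abel's theorem
-/

set_option autoImplicit false

namespace Pool.Agent.COV.H94

open Polynomial Pool.Agent.KDT.Z Pool.Agent.COV

/-- the derivation of the coefficients -/
theorem exD {U : Type} [Field U] (d : Derivation ℤ U U) :
    ∃ D : Derivation ℤ U[X] U[X], ∀ (P : U[X]) (i : ℕ), (D P).coeff i = d (P.coeff i) := by
  letI : Differential U := ⟨d⟩
  exact ⟨Differential.mapCoeffs, fun P i => Differential.coeff_mapCoeffs P i⟩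

section core

variable {U : Type} [Field U] (d : Derivation ℤ U U) (D : Derivation ℤ U[X] U[X])
  (hD : ∀ (P : U[X]) (i : ℕ), (D P).coeff i = d (P.coeff i))

include hD

theorem D_C (a : U) : D (C a) = C (d a) := by
  ext i
  rw [hD, coeff_C, coeff_C]
  split_ifs with h
  · rfl
  · exact map_zero d

theorem D_X : D X = 0 := by
  ext i
  rw [hD, coeff_X, coeff_zero]
  split_ifs with h
  · exact d.map_one_eq_zero
  · exact map_zero d

theorem D_lin (a : U) : D (X - C a) = - C (d a) := by
  rw [map_sub, D_X d D hD, D_C d D hD, zero_sub]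

theorem D_eval (P : U[X]) (a : U) :
    d (P.eval a) = (D P).eval a + (derivative P).eval a * d a := by
  induction P using Polynomial.induction_on with
  | C c => rw [eval_C, D_C d D hD, eval_C, derivative_C, eval_zero, zero_mul, add_zero]
  | add p q hp hq =>
    rw [eval_add, map_add, hp, hq, map_add, eval_add, derivative_add, eval_add]
    ring
  | monomial n c h =>
    have e1 : C c * X ^ (n + 1) = (C c * X ^ n) * X := by ring
    have e2 : D (C c * X ^ n * X) = X * D (C c * X ^ n) := by
      rw [Derivation.leibniz, D_X d D hD, smul_zero, zero_add, smul_eq_mul]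
    rw [e1, eval_mul, eval_X, Derivation.leibniz, h, e2, derivative_mul (f := C c * X ^ n),
      derivative_X]
    simp only [smul_eq_mul, eval_add, eval_mul, eval_X, mul_one]
    ring

theorem D_prod {ι : Type} [DecidableEq ι] (s : Finset ι) (x : ι → U) :
    D (∏ i ∈ s, (X - C (x i))) =
      - ∑ i ∈ s, C (d (x i)) * ∏ m ∈ s.erase i, (X - C (x m)) := by
  induction s using Finset.induction_on with
  | empty => simp
  | insert a s ha ih =>
    rw [Finset.prod_insert ha, Derivation.leibniz, ih, D_lin d D hD, Finset.sum_insert ha,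
      Finset.erase_insert ha]
    have e1 : ∑ i ∈ s, C (d (x i)) * ∏ m ∈ (insert a s).erase i, (X - C (x m)) =
        (X - C (x a)) * ∑ i ∈ s, C (d (x i)) * ∏ m ∈ s.erase i, (X - C (x m)) := by
      rw [Finset.mul_sum]
      refine Finset.sum_congr rfl fun i hi => ?_
      have hia : i ≠ a := by
        rintro rfl
        exact ha hi
      rw [Finset.erase_insert_of_ne hia.symm,
        Finset.prod_insert (by rw [Finset.mem_erase]; exact fun h => ha h.2)]
      ring
    rw [e1]
    simp only [smul_eq_mul]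
    ring

theorem D_natDegree (P : U[X]) {n : ℕ} (h : P.natDegree ≤ n) : (D P).natDegree ≤ n := by
  rw [natDegree_le_iff_coeff_eq_zero]
  intro N hN
  rw [hD, coeff_eq_zero_of_natDegree_lt (lt_of_le_of_lt h hN), map_zero]

theorem core (g L : U[X]) (x : Fin 6 → U) (c : U) (hc : c ≠ 0) (hg : Squarefree g)
    (hgd : D g = 0) (h0 : ∀ i, L.eval (x i) = 0 → d (x i) = 0) (hL : L.natDegree ≤ 3)
    (h : L ^ 2 - g = C c * ∏ i, (X - C (x i))) :
    ∑ i, d (x i) / L.eval (x i) = 0 ∧ ∑ i, d (x i) / L.eval (x i) * x i = 0 := by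
  classical
  set e : Fin 6 → U := fun i => d (x i) / L.eval (x i) with he
  set M : U[X] := ∏ i, (X - C (x i)) with hM
  set Mi : Fin 6 → U[X] := fun i => ∏ m ∈ Finset.univ.erase i, (X - C (x m)) with hMi
  have hMM : ∀ i, M = (X - C (x i)) * Mi i := fun i =>
    (Finset.mul_prod_erase Finset.univ (fun i => X - C (x i)) (Finset.mem_univ i)).symm
  have hcop : ∀ a b : U, a ≠ b → IsCoprime (X - C a) (X - C b) := fun a b hab =>
    isCoprime_X_sub_C_of_isUnit_sub (sub_ne_zero.2 hab).isUnit
  set Δ : U[X] := 2 * D L + C c * ∑ i, C (e i) * Mi i with hΔ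
  -- the derivative of the equation
  have e1 : 2 * L * D L = C (d c) * M + C c * (- ∑ i, C (d (x i)) * Mi i) := by
    have h1 : L ^ 2 = g + C c * M := by rw [← h]; ring
    have h2 := congrArg D h1
    rw [map_add, hgd, zero_add, Derivation.leibniz, D_C d D hD, pow_two, Derivation.leibniz,
      hM, D_prod d D hD] at h2
    simp only [smul_eq_mul] at h2
    rw [hM]
    linear_combination h2
  have e2 : L * Δ = C (d c) * M + C c * ∑ i, (C (e i) * L - C (d (x i))) * Mi i := by
    have e3 : ∑ i, (C (e i) * L - C (d (x i))) * Mi i =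
        L * (∑ i, C (e i) * Mi i) - ∑ i, C (d (x i)) * Mi i := by
      rw [Finset.mul_sum, ← Finset.sum_sub_distrib]
      exact Finset.sum_congr rfl fun i _ => by ring
    rw [e3, hΔ]
    linear_combination e1
  have hdvd : M ∣ L * Δ := by
    rw [e2]
    refine dvd_add (Dvd.intro_left _ rfl) (Dvd.dvd.mul_left (Finset.dvd_sum fun i _ => ?_) _)
    rw [hMM i]
    refine mul_dvd_mul ?_ dvd_rfl
    rw [dvd_iff_isRoot, IsRoot, eval_sub, eval_mul, eval_C, eval_C]
    show d (x i) / L.eval (x i) * L.eval (x i) - d (x i) = 0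
    by_cases hi : L.eval (x i) = 0
    · rw [h0 i hi, zero_div, zero_mul, sub_zero]
    · rw [div_mul_cancel₀ _ hi, sub_self]
  -- the two parts of the product
  set I0 : Finset (Fin 6) := Finset.univ.filter (fun i => L.eval (x i) = 0) with hI0
  set I1 : Finset (Fin 6) := Finset.univ.filter (fun i => ¬ L.eval (x i) = 0) with hI1
  have hsplit : M = (∏ i ∈ I0, (X - C (x i))) * ∏ i ∈ I1, (X - C (x i)) :=
    (Finset.prod_filter_mul_prod_filter_not Finset.univ (fun i => L.eval (x i) = 0) _).symm
  have hc1 : IsCoprime (∏ i ∈ I1, (X - C (x i))) L := by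
    refine IsCoprime.prod_left fun i hi => ?_
    rw [(irreducible_X_sub_C (x i)).coprime_iff_not_dvd, dvd_iff_isRoot]
    exact (Finset.mem_filter.1 hi).2
  have hd1 : (∏ i ∈ I1, (X - C (x i))) ∣ Δ :=
    hc1.dvd_of_dvd_mul_left ((Dvd.intro_left _ hsplit.symm).trans hdvd)
  have hd0 : (∏ i ∈ I0, (X - C (x i))) ∣ Δ := by
    refine Finset.prod_dvd_of_coprime ?_ ?_
    · intro i hi j hj hij
      refine hcop _ _ fun hxx => ?_
      have hLi : L.eval (x i) = 0 := (Finset.mem_filter.1 hi).2
      have h1 : (X - C (x i)) ∣ L := dvd_iff_isRoot.2 hLi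
      have h2 : (X - C (x i)) * (X - C (x i)) ∣ M := by
        rw [hMM i]
        refine mul_dvd_mul dvd_rfl ?_
        have h3 : (X - C (x j)) ∣ Mi i :=
          Finset.dvd_prod_of_mem (fun m => X - C (x m))
            (Finset.mem_erase.2 ⟨fun h => hij h.symm, Finset.mem_univ j⟩)
        rw [hxx]
        exact h3
      have h4 : (X - C (x i)) * (X - C (x i)) ∣ g := by
        have h5 : g = L ^ 2 - C c * M := by rw [← h]; ring
        rw [h5, pow_two]
        exact dvd_sub (mul_dvd_mul h1 h1) (Dvd.dvd.mul_left h2 _)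
      exact not_isUnit_X_sub_C (x i) (hg _ h4)
    · intro i hi
      have hLi : L.eval (x i) = 0 := (Finset.mem_filter.1 hi).2
      rw [dvd_iff_isRoot, IsRoot, hΔ, eval_add, eval_mul, eval_mul, eval_finset_sum]
      have h1 : (D L).eval (x i) = 0 := by
        have h2 := D_eval d D hD L (x i)
        rw [hLi, map_zero, h0 i hLi, mul_zero, add_zero] at h2
        exact h2.symm
      have h2 : ∑ j, (C (e j) * Mi j).eval (x i) = 0 := by
        refine Finset.sum_eq_zero fun j _ => ?_
        rw [eval_mul, eval_C]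
        by_cases hji : j = i
        · have : e j = 0 := by
            rw [hji, he]
            show d (x i) / L.eval (x i) = 0
            rw [hLi, div_zero]
          rw [this, zero_mul]
        · have h3 : (X - C (x i)) ∣ Mi j :=
            Finset.dvd_prod_of_mem (fun m => X - C (x m))
              (Finset.mem_erase.2 ⟨fun h => hji h.symm, Finset.mem_univ i⟩)
          rw [show (Mi j).eval (x i) = 0 from dvd_iff_isRoot.1 h3, mul_zero]
      rw [h1, h2, mul_zero, mul_zero, add_zero]
  have hc01 : IsCoprime (∏ i ∈ I0, (X - C (x i))) (∏ i ∈ I1, (X - C (x i))) := by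
    refine IsCoprime.prod_left fun i hi => IsCoprime.prod_right fun j hj => hcop _ _ fun hxx => ?_
    have h1 := (Finset.mem_filter.1 hi).2
    have h2 := (Finset.mem_filter.1 hj).2
    rw [← hxx] at h2
    exact h2 h1
  have hMD : M ∣ Δ := by
    rw [hsplit]
    exact hc01.mul_dvd hd0 hd1
  -- degrees
  have cardE : ∀ i : Fin 6, (Finset.univ.erase i).card = 5 := fun i => by
    rw [Finset.card_erase_of_mem (Finset.mem_univ i), Finset.card_univ, Fintype.card_fin]
  have monM : ∀ s : Finset (Fin 6), (∏ i ∈ s, (X - C (x i))).Monic := fun s =>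
    monic_prod_of_monic _ _ fun i _ => monic_X_sub_C (x i)
  have degM : ∀ s : Finset (Fin 6), (∏ i ∈ s, (X - C (x i))).natDegree = s.card := fun s => by
    rw [natDegree_prod_of_monic _ _ fun i _ => monic_X_sub_C (x i)]
    simp
  have degMi : ∀ i, (Mi i).natDegree = 5 := fun i => by
    rw [show Mi i = ∏ m ∈ Finset.univ.erase i, (X - C (x m)) from rfl, degM, cardE]
  have hdeg : Δ.natDegree ≤ 5 := by
    have h1 : (2 * D L).natDegree ≤ 5 := by
      have h2 := D_natDegree d D hD L hL
      have h3 : (2 : U[X]) * D L = C 2 * D L := by rw [map_ofNat]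
      rw [h3]
      exact (natDegree_C_mul_le _ _).trans (h2.trans (by omega))
    have h4 : (C c * ∑ i, C (e i) * Mi i).natDegree ≤ 5 := by
      refine (natDegree_C_mul_le _ _).trans (natDegree_sum_le_of_forall_le _ _ fun i _ => ?_)
      exact (natDegree_C_mul_le _ _).trans (degMi i).le
    exact natDegree_add_le_of_degree_le h1 h4
  have hz : Δ = 0 := by
    refine eq_zero_of_dvd_of_natDegree_lt hMD ?_
    rw [hM, degM, Finset.card_univ, Fintype.card_fin]
    omega
  -- coefficients
  have hco : ∀ n, 4 ≤ n → ∑ i, e i * (Mi i).coeff n = 0 := by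
    intro n hn
    have h1 := congrArg (fun P : U[X] => P.coeff n) hz
    simp only [hΔ, coeff_add, coeff_zero, coeff_C_mul, finset_sum_coeff] at h1
    have h2 : ((2 : U[X]) * D L).coeff n = 0 := by
      have h3 : (2 : U[X]) * D L = C 2 * D L := by rw [map_ofNat]
      rw [h3, coeff_C_mul, coeff_eq_zero_of_natDegree_lt
        (lt_of_le_of_lt (D_natDegree d D hD L hL) (by omega)), mul_zero]
    rw [h2, zero_add] at h1
    exact (mul_eq_zero.1 h1).resolve_left hc
  have h5 : ∑ i, e i = 0 := by
    have h1 := hco 5 (by omega)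
    rw [← h1]
    refine Finset.sum_congr rfl fun i _ => ?_
    have h2 : (Mi i).coeff 5 = 1 := by
      have h3 := (monM (Finset.univ.erase i)).coeff_natDegree
      rw [degM, cardE] at h3
      exact h3
    rw [h2, mul_one]
  refine ⟨h5, ?_⟩
  have h4 := hco 4 (by omega)
  have h6 : ∀ i, (Mi i).coeff 4 = x i - ∑ m, x m := by
    intro i
    have h7 := prod_X_sub_C_coeff_card_pred (Finset.univ.erase i) x (by rw [cardE]; omega)
    rw [cardE] at h7
    have h8 : (Mi i).coeff 4 = - ∑ m ∈ Finset.univ.erase i, x m := h7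
    rw [h8, ← Finset.add_sum_erase Finset.univ x (Finset.mem_univ i)]
    ring
  have h9 : ∑ i, e i * (Mi i).coeff 4 = ∑ i, e i * x i - (∑ i, e i) * ∑ m, x m := by
    rw [Finset.sum_mul, ← Finset.sum_sub_distrib]
    exact Finset.sum_congr rfl fun i _ => by rw [h6 i]; ring
  rw [h9, h5, zero_mul, sub_zero] at h4
  exact h4

end core

theorem abl : AblStmt := by
  intro k U _ _ _ f g hE d s x L l hs hl hL h
  have := hE.kc
  have := hE.ch
  let d' : Derivation ℤ U U := d.restrictScalars ℤ
  have hd' : ∀ a, d' a = d a := fun _ => rfl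
  obtain ⟨D, hD⟩ := exD d'
  have hsf : Squarefree g := by
    have h1 : f.Separable := PerfectField.separable_iff_squarefree.2 hE.sf
    rw [hE.gm]
    exact (h1.map (f := algebraMap k U)).squarefree
  have hgd : D g = 0 := by
    ext i
    rw [hD, hE.gm, coeff_map, hd', d.map_algebraMap, coeff_zero]
  have h0 : ∀ i, L.eval (x i) = 0 → d' (x i) = 0 := by
    intro i hi
    have h1 : g.eval (x i) = 0 := by
      have h2 := congrArg (fun P : U[X] => P.eval (x i)) h
      have h3 : (∏ j, (X - C (x j))).eval (x i) = 0 := by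
        rw [eval_prod]
        exact Finset.prod_eq_zero (Finset.mem_univ i) (by simp)
      simp only [eval_sub, eval_pow, eval_mul, h3, mul_zero, hi] at h2
      simpa using h2
    have h4 : IsAlgebraic k (x i) := by
      refine ⟨f, hE.mo.ne_zero, ?_⟩
      rw [hE.gm, eval_map] at h1
      exact h1
    obtain ⟨a, ha⟩ := minpoly.mem_range_of_degree_eq_one k (x i)
      (IsAlgClosed.degree_eq_one_of_irreducible k (minpoly.irreducible h4.isIntegral))
    rw [hd', ← ha, d.map_algebraMap]
  obtain ⟨h1, h2⟩ := core d' D hD g L x (l ^ 2) (pow_ne_zero 2 hl) hsf hgd h0 hL h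
  have e1 : ∀ a : U, aeval a s = algebraMap k U (s.coeff 0) + algebraMap k U (s.coeff 1) * a := by
    intro a
    have h3 := s.as_sum_range' 2 (by omega)
    rw [h3]
    simp [Finset.sum_range_succ, aeval_monomial]
  have e2 : ∀ i, aeval (x i) s * d (x i) / L.eval (x i) =
      algebraMap k U (s.coeff 0) * (d' (x i) / L.eval (x i)) +
        algebraMap k U (s.coeff 1) * (d' (x i) / L.eval (x i) * x i) := by
    intro i
    rw [e1, hd']
    ring
  rw [Finset.sum_congr rfl fun i _ => e2 i, Finset.sum_add_distrib, ← Finset.mul_sum,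
    ← Finset.mul_sum, h1, h2, mul_zero, mul_zero, add_zero]

end Pool.Agent.COV.H94
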